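import Pool.Agent.Helper14.PC.Bulk

/-!
# The bulk with exponent `7`
-/

set_option autoImplicit false

namespace Pool.Agent.Helper14.PC

open Polynomial EVC Pool.Agent.Helper10.PC

/-- **The bulk.** -/
theorem bulk7 : ∃ C : ℝ, 0 < C ∧ ∀ b κ ε E : ℝ, AdmP b κ ε E → ∀ (L : ℕ) (P : ℝ[X]), HP b κ ε E L P →
    ∀ r : ℝ, 0 < r → r ≤ 600 → C * E / (κ * b) ^ 7 ≤ L * √r → ∀ k : ℕ, 1 ≤ k → mean P r = k →
      P.coeff (k - 1) * P.coeff (k + 1) < P.coeff k ^ 2 := by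
  refine ⟨10 ^ 20, by positivity, fun b κ ε E hA L P h r hr h6 hyC k hk hmean => ?_⟩
  have hb := hA.hb
  have hb1 := hA.hb1
  have hκ := hA.hκ
  have hκ1 := hA.hκ1
  have hE := hA.hE
  obtain ⟨y, hyd⟩ : ∃ y, y = L * √r := ⟨_, rfl⟩
  rw [← hyd] at hyC
  obtain ⟨q, hq⟩ : ∃ q, q = κ * b := ⟨_, rfl⟩
  rw [← hq] at hyC
  have hq0 : 0 < q := by rw [hq]; positivity
  have hq1 : q ≤ 1 := by rw [hq]; exact mul_le_one₀ hκ1 hb.le hb1
  have hqκ : q ≤ κ := by
    rw [hq]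
    nlinarith
  rw [div_le_iff₀ (by positivity)] at hyC
  have hy0 : 0 ≤ y := by rw [hyd]; positivity
  -- comparison of the powers
  have hpw : ∀ i j : ℕ, i ≤ 7 → j ≤ 7 → q ^ 7 ≤ κ ^ i * b ^ j := by
    intro i j hi hj
    rw [hq, mul_pow]
    exact mul_le_mul (pow_le_pow_of_le_one hκ.le hκ1 hi) (pow_le_pow_of_le_one hb.le hb1 hj) (by positivity) (by positivity)
  have hpw2 : ∀ i j : ℕ, i ≤ 3 → j ≤ 3 → q ^ 3 ≤ κ ^ i * b ^ j := by
    intro i j hi hj
    rw [hq, mul_pow]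
    exact mul_le_mul (pow_le_pow_of_le_one hκ.le hκ1 hi) (pow_le_pow_of_le_one hb.le hb1 hj) (by positivity) (by positivity)
  have hy3 : 40000000 * E ≤ y * (κ ^ 3 * b ^ 6) := by
    have h1 : y * q ^ 7 ≤ y * (κ ^ 3 * b ^ 6) := mul_le_mul_of_nonneg_left (hpw 3 6 (by norm_num) (by norm_num)) hy0
    have h2 : (40000000 : ℝ) * E ≤ 10 ^ 20 * E := by
      have : (40000000 : ℝ) ≤ 10 ^ 20 := by norm_num
      nlinarith
    linarith
  have hkb : κ ^ 3 * b ^ 6 ≤ 1 := mul_le_one₀ (pow_le_one₀ hκ.le hκ1) (by positivity) (pow_le_one₀ hb.le hb1)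
  have hEy : E ≤ y := by nlinarith
  have hV := var_ge hA h hr h6 (by rw [← hyd]; exact hy3)
  rw [← hyd] at hV
  have hW := W_le' hA h hr (by rw [← hyd]; exact hEy)
  rw [← hyd] at hW
  have hVW := V_le_W P r
  have hPr := h.toNice.eval_pos hr
  have hlo := h.lo r hr h6
  obtain ⟨d, hd⟩ : ∃ d, d = κ * b ^ 3 / 1000 := ⟨_, rfl⟩
  obtain ⟨c, hc⟩ : ∃ c, c = κ * d ^ 2 * b ^ 2 / 110 := ⟨_, rfl⟩
  have hd0 : 0 < d := by rw [hd]; positivity
  have hc0 : 0 < c := by rw [hc]; positivity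
  have hb3 : b ^ 3 ≤ b := by
    calc b ^ 3 = b * (b * b) := by ring
      _ ≤ b * 1 := by
        refine mul_le_mul_of_nonneg_left ?_ hb.le
        nlinarith
      _ = b := mul_one b
  have hdb : d ≤ b / 1000 := by
    rw [hd]
    have : κ * b ^ 3 ≤ 1 * b := mul_le_mul hκ1 hb3 (by positivity) zero_le_one
    linarith
  have hE2 : 2 * E ≤ κ * y * d ^ 2 / 20 := by
    have : κ * y * d ^ 2 = y * (κ ^ 3 * b ^ 6) / 1000000 := by
      rw [hd]
      ring
    rw [this]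
    linarith
  have hVpos : 0 < V P r := by
    have h1 : 0 < κ / 5 * y := by
      have : 0 < y := by linarith
      positivity
    linarith
  obtain ⟨v, hv⟩ : ∃ v, v = √(V P r) := ⟨_, rfl⟩
  have hv2 : v ^ 2 = V P r := by rw [hv]; exact Real.sq_sqrt hVpos.le
  -- `v ≥ 10 ^ 9 / q ^ 3`
  have hvb : 10 ^ 9 / q ^ 3 ≤ v := by
    rw [hv]
    apply Real.le_sqrt_of_sq_le
    rw [div_pow, ← pow_mul, ← pow_mul, div_le_iff₀ (by positivity)]
    have h1 : κ / 5 * y * q ^ 6 ≤ V P r * q ^ 6 := mul_le_mul_of_nonneg_right hV (by positivity)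
    have h2 : q * (y * q ^ 6) ≤ κ * (y * q ^ 6) := mul_le_mul_of_nonneg_right hqκ (by positivity)
    have h3 : q * (y * q ^ 6) = y * q ^ 7 := by ring
    have h4 : (10 : ℝ) ^ (9 * 2) ≤ 10 ^ 20 * E / 5 := by
      have : (10 : ℝ) ^ (9 * 2) ≤ 10 ^ 20 * 1 / 5 := by norm_num
      have h5 : (10 : ℝ) ^ 20 * 1 ≤ 10 ^ 20 * E := mul_le_mul_of_nonneg_left hE (by positivity)
      linarith
    have h5 : q ^ (3 * 2) = q ^ 6 := by norm_num
    rw [h5]
    calc (10 : ℝ) ^ (9 * 2) ≤ 10 ^ 20 * E / 5 := h4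
      _ ≤ y * q ^ 7 / 5 := by linarith
      _ ≤ κ * (y * q ^ 6) / 5 := by linarith
      _ = κ / 5 * y * q ^ 6 := by ring
      _ ≤ _ := h1
  have hq3 : 0 < q ^ 3 := by positivity
  have i1 : 1 / (κ * b ^ 3) ≤ 1 / q ^ 3 := by
    apply one_div_le_one_div_of_le hq3
    have := hpw2 1 3 (by norm_num) (by norm_num)
    rwa [pow_one] at this
  have iq : 1 ≤ 1 / q ^ 3 := by
    rw [le_div_iff₀ hq3, one_mul]
    exact pow_le_one₀ hq0.le hq1
  have hvb' : 10 ^ 9 * (1 / q ^ 3) ≤ v := by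
    rw [mul_one_div]
    exact hvb
  -- the size of the exponent
  obtain ⟨X, hX⟩ : ∃ X, X = κ * y * d ^ 2 := ⟨_, rfl⟩
  have hXy : X = y * (κ ^ 3 * b ^ 6) / 1000000 := by
    rw [hX, hd]
    ring
  have hXq : 10 ^ 14 ≤ X * q := by
    have h1 : q ^ 6 ≤ κ ^ 3 * b ^ 6 := by
      rw [hq, mul_pow]
      exact mul_le_mul_of_nonneg_right (pow_le_pow_of_le_one hκ.le hκ1 (by norm_num)) (by positivity)
    have h2 : y * q ^ 6 * q ≤ y * (κ ^ 3 * b ^ 6) * q :=
      mul_le_mul_of_nonneg_right (mul_le_mul_of_nonneg_left h1 hy0) hq0.le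
    have h3 : y * q ^ 6 * q = y * q ^ 7 := by ring
    have h4 : (10 : ℝ) ^ 20 * 1 ≤ 10 ^ 20 * E := mul_le_mul_of_nonneg_left hE (by positivity)
    rw [hXy]
    have h5 : (10 : ℝ) ^ 20 ≤ y * (κ ^ 3 * b ^ 6) * q := by linarith
    have h6 : y * (κ ^ 3 * b ^ 6) / 1000000 * q = y * (κ ^ 3 * b ^ 6) * q / 1000000 := by ring
    rw [h6, le_div_iff₀ (by norm_num)]
    refine le_trans (le_of_eq ?_) h5
    norm_num
  have hX0 : 0 < X := by
    rw [hX]
    have : 0 < y := by linarith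
    positivity
  have hexpX : Real.exp (-(X / 20)) ≤ (20 : ℝ) ^ 16 * Nat.factorial 16 / X ^ 16 := by
    have h1 := Real.pow_div_factorial_le_exp (X / 20) (by positivity) 16
    rw [Real.exp_neg, inv_eq_one_div, div_le_div_iff₀ (Real.exp_pos _) (by positivity), one_mul]
    rw [div_le_iff₀ (by positivity), div_pow, div_le_iff₀ (by positivity)] at h1
    calc X ^ 16 ≤ Real.exp (X / 20) * (Nat.factorial 16 : ℝ) * 20 ^ 16 := h1
      _ = (20 : ℝ) ^ 16 * Nat.factorial 16 * Real.exp (X / 20) := by ring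
  have htl : 480 * Real.exp (-(X / 20)) / c ^ 2 ≤ 1 := by
    have e1 : c = κ ^ 3 * b ^ 8 / 110000000 := by
      rw [hc, hd]
      ring
    have h1 : q ^ 8 ≤ κ ^ 3 * b ^ 8 := by
      rw [hq, mul_pow]
      exact mul_le_mul_of_nonneg_right (pow_le_pow_of_le_one hκ.le hκ1 (by norm_num)) (by positivity)
    have h2 : q ^ 8 / 110000000 ≤ c := by
      rw [e1]
      exact div_le_div_of_nonneg_right h1 (by norm_num)
    have h3 : (q ^ 8 / 110000000) ^ 2 ≤ c ^ 2 := pow_le_pow_left₀ (by positivity) h2 2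
    rw [div_le_one (by positivity)]
    refine le_trans ?_ h3
    have h4 : (10 ^ 14 : ℝ) ^ 16 ≤ (X * q) ^ 16 := pow_le_pow_left₀ (by positivity) hXq 16
    rw [mul_pow] at h4
    have h5 : Real.exp (-(X / 20)) * X ^ 16 ≤ (20 : ℝ) ^ 16 * Nat.factorial 16 := by
      rwa [le_div_iff₀ (by positivity)] at hexpX
    have h6 : Real.exp (-(X / 20)) * (10 ^ 14 : ℝ) ^ 16 ≤ (20 : ℝ) ^ 16 * Nat.factorial 16 * q ^ 16 := by
      calc Real.exp (-(X / 20)) * (10 ^ 14 : ℝ) ^ 16 ≤ Real.exp (-(X / 20)) * (X ^ 16 * q ^ 16) :=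
            mul_le_mul_of_nonneg_left h4 (Real.exp_pos _).le
        _ = Real.exp (-(X / 20)) * X ^ 16 * q ^ 16 := by ring
        _ ≤ _ := mul_le_mul_of_nonneg_right h5 (by positivity)
    have h7 : (Nat.factorial 16 : ℝ) = 20922789888000 := by
      norm_num [Nat.factorial]
    rw [h7] at h6
    have h8 : (q ^ 8 / 110000000) ^ 2 = q ^ 16 / 110000000 ^ 2 := by ring
    rw [h8, le_div_iff₀ (by norm_num)]
    have hq16 : 0 ≤ q ^ 16 := by positivity
    have h9 : Real.exp (-(X / 20)) ≤ (20 : ℝ) ^ 16 * 20922789888000 / (10 ^ 14 : ℝ) ^ 16 * q ^ 16 := by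
      rw [div_mul_eq_mul_div, le_div_iff₀ (by positivity)]
      exact h6
    have h10 : (480 : ℝ) * 110000000 ^ 2 * ((20 : ℝ) ^ 16 * 20922789888000 / (10 ^ 14 : ℝ) ^ 16) ≤ 1 := by norm_num
    calc 480 * Real.exp (-(X / 20)) * 110000000 ^ 2 = 480 * 110000000 ^ 2 * Real.exp (-(X / 20)) := by ring
      _ ≤ 480 * 110000000 ^ 2 * ((20 : ℝ) ^ 16 * 20922789888000 / (10 ^ 14 : ℝ) ^ 16 * q ^ 16) :=
        mul_le_mul_of_nonneg_left h9 (by positivity)
      _ = (480 * 110000000 ^ 2 * ((20 : ℝ) ^ 16 * 20922789888000 / (10 ^ 14 : ℝ) ^ 16)) * q ^ 16 := by ring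
      _ ≤ 1 * q ^ 16 := mul_le_mul_of_nonneg_right h10 hq16
      _ = q ^ 16 := one_mul _
  refine Helper92.EV.saddle_core P h.nn k hk r v d (220 / (κ * b ^ 3)) (Real.exp (-(X / 20))) c hr hPr hd0 (by linarith)
    (by positivity) ?_ (Real.exp_pos _).le hc0 ⟨?_, ?_⟩ (by linarith) ?_ ?_
  · have : 220 / (κ * b ^ 3) * d = 220 / 1000 := by
      rw [hd]
      field_simp
    rw [this]
    norm_num
  · have e1 : 960 * (220 / (κ * b ^ 3)) = 211200 * (1 / (κ * b ^ 3)) := by ring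
    rw [e1]
    linarith
  · have e1 : 1 / d = 1000 * (1 / (κ * b ^ 3)) := by
      rw [hd]
      field_simp
    rw [e1]
    linarith
  · intro x hx
    have hx0 : |x| = x := abs_of_nonneg hx.1
    obtain ⟨w, hw1, hw2⟩ := loc hA h hr (by rw [← hyd]; exact hEy) (x := x) (by rw [hx0]; linarith [hx.2])
    rw [← hyd, hx0] at hw1
    refine ⟨w, hw1.trans ?_, ?_⟩
    · refine mul_le_mul_of_nonneg_right ?_ (pow_nonneg hx.1 3)
      rw [hv2]
      calc 44 * y / b ^ 3 = 220 / (κ * b ^ 3) * (κ / 5 * y) := by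
            field_simp
            ring
        _ ≤ 220 / (κ * b ^ 3) * V P r := mul_le_mul_of_nonneg_left hV (by positivity)
    · have e1 : aeval ((r : ℂ) * Complex.exp ((x : ℂ) * Complex.I)) P = aeval (pt r x) P := rfl
      rw [e1, hw2, hmean, hv2]
      congr 2
      push_cast
      ring
  · intro x hx
    have hx0 : 0 ≤ x := hd0.le.trans hx.1
    have e1 : aeval ((r : ℂ) * Complex.exp ((x : ℂ) * Complex.I)) P = aeval (pt r x) P := rfl
    rw [e1, hv2]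
    have h1 := h.hi r x hr h6 (by rw [abs_of_nonneg hx0]; exact hx.2)
    rw [← hyd] at h1
    refine h1.trans ?_
    rw [← Real.exp_add]
    refine le_trans ?_ (mul_le_mul_of_nonneg_left hlo (Real.exp_pos _).le)
    rw [← Real.exp_add]
    apply Real.exp_le_exp.2
    have h2 := Helper92.EV.one_sub_cos_lower hx0 hx.2
    have h3 : d ^ 2 ≤ x ^ 2 := pow_le_pow_left₀ hd0.le hx.1 2
    have h4 : κ * y * (d ^ 2 / 5) ≤ κ * y * (1 - Real.cos x) := mul_le_mul_of_nonneg_left (by linarith) (by positivity)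
    have h5 : c * V P r ≤ κ * y * d ^ 2 / 10 := by
      have h6 : c * V P r ≤ c * W P r := mul_le_mul_of_nonneg_left hVW hc0.le
      have h7 : c * W P r = κ * d ^ 2 / 110 * (b ^ 2 * W P r) := by
        rw [hc]
        ring
      have h8 : κ * d ^ 2 / 110 * (b ^ 2 * W P r) ≤ κ * d ^ 2 / 110 * (11 * y) := mul_le_mul_of_nonneg_left hW (by positivity)
      linarith
    have h6 : 0 ≤ κ * y * d ^ 2 := by positivity
    rw [hX]
    linarith

end Pool.Agent.Helper14.PC
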