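import Pool.Agent.Helper14.PC.Local
import Pool.Agent.Helper10.PC.Count
import Pool.Agent.Helper3.EVC.E15
import Pool.Agent.Helper92.EV.SaddlePoint

/-!
# The bulk with explicit polynomial constants
-/

set_option autoImplicit false

namespace Pool.Agent.Helper14.PC

open Polynomial EVC Pool.Agent.Helper10.PC

variable {b κ ε E : ℝ} {L : ℕ} {P : ℝ[X]}

/-- `W` in terms of `y = L √r` -/
theorem W_le' (hA : AdmP b κ ε E) (h : HP b κ ε E L P) {r : ℝ} (hr : 0 < r) (hy : E ≤ L * √r) :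
    b ^ 2 * W P r ≤ 11 * (L * √r) := by
  have hb := hA.hb
  have h1 := W_le h hb (zero_le_one.trans hA.hE) hr
  have h2 : b ^ 2 * W P r ≤ b ^ 2 * (1 / b ^ 2 * (8 * (L * √r) + 3 * E)) := mul_le_mul_of_nonneg_left h1 (by positivity)
  have h3 : b ^ 2 * (1 / b ^ 2 * (8 * (L * √r) + 3 * E)) = 8 * (L * √r) + 3 * E := by
    field_simp
  linarith

/-- the local form with all constants -/
theorem loc (hA : AdmP b κ ε E) (h : HP b κ ε E L P) {r : ℝ} (hr : 0 < r) (hy : E ≤ L * √r) {x : ℝ} (hx : |x| ≤ b / 2) :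
    ∃ w : ℂ, ‖w‖ ≤ 44 * (L * √r) / b ^ 3 * |x| ^ 3 ∧
      aeval (pt r x) P = ((P.eval r : ℝ) : ℂ) * Complex.exp (x * mean P r * Complex.I - (x : ℂ) ^ 2 / 2 * V P r + w) := by
  have hb := hA.hb
  have hb1 := hA.hb1
  have hB : 1 ≤ 1 / b := by
    rw [le_div_iff₀ hb]
    linarith
  have e : 1 / (2 * (1 / b)) = b / 2 := by
    field_simp
  obtain ⟨w, hw1, hw2⟩ := local_form' hB h.toNice hr (fun ρ hρ => norm_p_le_inv hr hb (h.dist ρ hρ r hr))
    (by rw [e]; exact hx)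
  refine ⟨w, hw1.trans ?_, hw2⟩
  refine mul_le_mul_of_nonneg_right ?_ (by positivity)
  have h1 := W_le' hA h hr hy
  rw [le_div_iff₀ (by positivity)]
  have h2 : 2 * (1 + 1 / b) * W P r * b ^ 3 = 2 * (b + 1) * (b ^ 2 * W P r) := by
    field_simp
  rw [h2]
  have h3 : 0 ≤ b ^ 2 * W P r := by
    have : 0 ≤ W P r := by
      unfold W
      apply Multiset.sum_nonneg
      intro x hx
      obtain ⟨ρ, -, rfl⟩ := Multiset.mem_map.1 hx
      exact norm_nonneg _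
    positivity
  calc 2 * (b + 1) * (b ^ 2 * W P r) ≤ 4 * (b ^ 2 * W P r) := by nlinarith
    _ ≤ 44 * (L * √r) := by linarith

/-- the real part of the exponent -/
theorem re_expo (x m V : ℝ) (w : ℂ) : ((x : ℂ) * (m : ℂ) * Complex.I - (x : ℂ) ^ 2 / 2 * (V : ℂ) + w).re =
    -(x ^ 2 / 2 * V) + w.re := by
  have e1 : (x : ℂ) ^ 2 / 2 * (V : ℂ) = ((x ^ 2 / 2 * V : ℝ) : ℂ) := by
    push_cast
    ring
  have e2 : ((x : ℂ) * (m : ℂ) * Complex.I).re = 0 := by
    have : (x : ℂ) * (m : ℂ) * Complex.I = ((x * m : ℝ) : ℂ) * Complex.I := by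
      push_cast
      ring
    rw [this, Complex.re_ofReal_mul, Complex.I_re, mul_zero]
  rw [Complex.add_re, Complex.sub_re, e1, Complex.ofReal_re, e2]
  ring

/-- **Lower bound of the variance.** -/
theorem var_ge (hA : AdmP b κ ε E) (h : HP b κ ε E L P) {r : ℝ} (hr : 0 < r) (h6 : r ≤ 600)
    (hy : 40000000 * E ≤ L * √r * (κ ^ 3 * b ^ 6)) : κ / 5 * (L * √r) ≤ V P r := by
  have hb := hA.hb
  have hb1 := hA.hb1
  have hκ := hA.hκ
  have hκ1 := hA.hκ1
  have hE := hA.hE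
  obtain ⟨y, hyd⟩ : ∃ y, y = L * √r := ⟨_, rfl⟩
  have hy0 : 0 ≤ y := by rw [hyd]; positivity
  have hkb : κ ^ 3 * b ^ 6 ≤ 1 := mul_le_one₀ (pow_le_one₀ hκ.le hκ1) (by positivity) (pow_le_one₀ hb.le hb1)
  rw [← hyd] at hy
  have hEy : E ≤ y := by nlinarith
  obtain ⟨θ, hθ⟩ : ∃ θ, θ = κ * b ^ 3 / 1000 := ⟨_, rfl⟩
  have hθ0 : 0 < θ := by rw [hθ]; positivity
  have hb3 : b ^ 3 ≤ b := by
    calc b ^ 3 = b * (b * b) := by ring
      _ ≤ b * 1 := by
        refine mul_le_mul_of_nonneg_left ?_ hb.le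
        nlinarith
      _ = b := mul_one b
  have hθb : θ ≤ b / 1000 := by
    rw [hθ]
    have : κ * b ^ 3 ≤ 1 * b := mul_le_mul hκ1 hb3 (by positivity) zero_le_one
    linarith
  have hθabs : |θ| = θ := abs_of_pos hθ0
  obtain ⟨w, hw1, hw2⟩ := loc hA h hr (by rw [← hyd]; exact hEy) (x := θ) (by rw [hθabs]; linarith)
  rw [← hyd, hθabs] at hw1
  have hPr := h.toNice.eval_pos hr
  have hhi := h.hi r θ hr h6 (by rw [hθabs]; linarith [Real.pi_gt_three])
  have hlo := h.lo r hr h6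
  rw [hw2, norm_mul, Complex.norm_real, Real.norm_of_nonneg hPr.le, Complex.norm_exp, re_expo, ← hyd] at hhi
  have h1 : Real.exp (L * A r - E) * Real.exp (-(θ ^ 2 / 2 * V P r) + w.re) ≤
      Real.exp (L * A r + E - κ * y * (1 - Real.cos θ)) :=
    (mul_le_mul_of_nonneg_right hlo (Real.exp_pos _).le).trans hhi
  rw [← Real.exp_add] at h1
  have h2 := Real.exp_le_exp.1 h1
  have h3 : -‖w‖ ≤ w.re := (abs_le.1 (Complex.abs_re_le_norm _)).1
  have h4 := Helper92.EV.one_sub_cos_lower hθ0.le (by linarith [Real.pi_gt_three])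
  have h5 : κ * y * (θ ^ 2 / 5) ≤ κ * y * (1 - Real.cos θ) := mul_le_mul_of_nonneg_left h4 (by positivity)
  have h7 : 44 * y / b ^ 3 * θ ^ 3 = 44 / 1000 * (κ * y * θ ^ 2) := by
    have : θ ^ 3 = θ ^ 2 * (κ * b ^ 3 / 1000) := by
      rw [← hθ]
      ring
    rw [this]
    field_simp
  have h8 : E ≤ κ * y * θ ^ 2 / 40 := by
    have : κ * y * θ ^ 2 = y * (κ ^ 3 * b ^ 6) / 1000000 := by
      rw [hθ]
      ring
    rw [this]
    linarith
  have h9 : κ * y * θ ^ 2 * (106 / 1000) ≤ θ ^ 2 / 2 * V P r := by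
    rw [h7] at hw1
    linarith
  have h10 : θ ^ 2 / 2 * (κ / 5 * y) ≤ θ ^ 2 / 2 * V P r := by
    refine le_trans ?_ h9
    have : 0 ≤ κ * y * θ ^ 2 := by positivity
    nlinarith
  rw [← hyd]
  exact le_of_mul_le_mul_left h10 (by positivity)

/-- **The bulk.** -/
theorem bulk : ∃ C : ℝ, 0 < C ∧ ∀ b κ ε E : ℝ, AdmP b κ ε E → ∀ (L : ℕ) (P : ℝ[X]), HP b κ ε E L P →
    ∀ r : ℝ, 0 < r → r ≤ 600 → C * E / (κ * b) ^ 33 ≤ L * √r → ∀ k : ℕ, 1 ≤ k → mean P r = k →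
      P.coeff (k - 1) * P.coeff (k + 1) < P.coeff k ^ 2 := by
  refine ⟨10 ^ 40, by positivity, fun b κ ε E hA L P h r hr h6 hyC k hk hmean => ?_⟩
  have hb := hA.hb
  have hb1 := hA.hb1
  have hκ := hA.hκ
  have hκ1 := hA.hκ1
  have hE := hA.hE
  obtain ⟨y, hyd⟩ : ∃ y, y = L * √r := ⟨_, rfl⟩
  rw [← hyd] at hyC
  obtain ⟨q, hq⟩ : ∃ q, q = κ * b := ⟨_, rfl⟩
  rw [← hq] at hyC
  have hq0 : 0 < q := by rw [hq]; positivity
  have hq1 : q ≤ 1 := by rw [hq]; exact mul_le_one₀ hκ1 hb.le hb1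
  have hqκ : q ≤ κ := by
    rw [hq]
    nlinarith
  rw [div_le_iff₀ (by positivity)] at hyC
  have hy0 : 0 ≤ y := by rw [hyd]; positivity
  -- comparison of the powers
  have hpw : ∀ i j : ℕ, i ≤ 33 → j ≤ 33 → q ^ 33 ≤ κ ^ i * b ^ j := by
    intro i j hi hj
    rw [hq, mul_pow]
    exact mul_le_mul (pow_le_pow_of_le_one hκ.le hκ1 hi) (pow_le_pow_of_le_one hb.le hb1 hj) (by positivity) (by positivity)
  have hpw2 : ∀ i j : ℕ, i ≤ 16 → j ≤ 16 → q ^ 16 ≤ κ ^ i * b ^ j := by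
    intro i j hi hj
    rw [hq, mul_pow]
    exact mul_le_mul (pow_le_pow_of_le_one hκ.le hκ1 hi) (pow_le_pow_of_le_one hb.le hb1 hj) (by positivity) (by positivity)
  have hy3 : 40000000 * E ≤ y * (κ ^ 3 * b ^ 6) := by
    have h1 : y * q ^ 33 ≤ y * (κ ^ 3 * b ^ 6) := mul_le_mul_of_nonneg_left (hpw 3 6 (by norm_num) (by norm_num)) hy0
    have h2 : (40000000 : ℝ) * E ≤ 10 ^ 40 * E := by
      have : (40000000 : ℝ) ≤ 10 ^ 40 := by norm_num
      nlinarith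
    linarith
  have hkb : κ ^ 3 * b ^ 6 ≤ 1 := mul_le_one₀ (pow_le_one₀ hκ.le hκ1) (by positivity) (pow_le_one₀ hb.le hb1)
  have hEy : E ≤ y := by nlinarith
  have hV := var_ge hA h hr h6 (by rw [← hyd]; exact hy3)
  rw [← hyd] at hV
  have hW := W_le' hA h hr (by rw [← hyd]; exact hEy)
  rw [← hyd] at hW
  have hVW := V_le_W P r
  have hPr := h.toNice.eval_pos hr
  have hlo := h.lo r hr h6
  obtain ⟨d, hd⟩ : ∃ d, d = κ * b ^ 3 / 1000 := ⟨_, rfl⟩
  obtain ⟨c, hc⟩ : ∃ c, c = κ * d ^ 2 * b ^ 2 / 110 := ⟨_, rfl⟩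
  have hd0 : 0 < d := by rw [hd]; positivity
  have hc0 : 0 < c := by rw [hc]; positivity
  have hb3 : b ^ 3 ≤ b := by
    calc b ^ 3 = b * (b * b) := by ring
      _ ≤ b * 1 := by
        refine mul_le_mul_of_nonneg_left ?_ hb.le
        nlinarith
      _ = b := mul_one b
  have hdb : d ≤ b / 1000 := by
    rw [hd]
    have : κ * b ^ 3 ≤ 1 * b := mul_le_mul hκ1 hb3 (by positivity) zero_le_one
    linarith
  have hE2 : 2 * E ≤ κ * y * d ^ 2 / 20 := by
    have : κ * y * d ^ 2 = y * (κ ^ 3 * b ^ 6) / 1000000 := by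
      rw [hd]
      ring
    rw [this]
    linarith
  have hVpos : 0 < V P r := by
    have h1 : 0 < κ / 5 * y := by
      have : 0 < y := by linarith
      positivity
    linarith
  obtain ⟨v, hv⟩ : ∃ v, v = √(V P r) := ⟨_, rfl⟩
  have hv2 : v ^ 2 = V P r := by rw [hv]; exact Real.sq_sqrt hVpos.le
  have hvb : 10 ^ 19 / q ^ 16 ≤ v := by
    rw [hv]
    apply Real.le_sqrt_of_sq_le
    rw [div_pow, ← pow_mul, ← pow_mul, div_le_iff₀ (by positivity)]
    -- `κ y / 5 * q ^ 32 ≥ 2 * 10 ^ 39 * E`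
    have h1 : κ / 5 * y * q ^ 32 ≤ V P r * q ^ 32 := mul_le_mul_of_nonneg_right hV (by positivity)
    have h2 : q * (y * q ^ 32) ≤ κ * (y * q ^ 32) := mul_le_mul_of_nonneg_right hqκ (by positivity)
    have h3 : q * (y * q ^ 32) = y * q ^ 33 := by ring
    have h4 : (10 : ℝ) ^ (19 * 2) ≤ 10 ^ 40 * E / 5 := by
      have : (10 : ℝ) ^ (19 * 2) ≤ 10 ^ 40 * 1 / 5 := by norm_num
      have h5 : (10 : ℝ) ^ 40 * 1 ≤ 10 ^ 40 * E := mul_le_mul_of_nonneg_left hE (by positivity)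
      linarith
    have h5 : q ^ (16 * 2) = q ^ 32 := by norm_num
    rw [h5]
    calc (10 : ℝ) ^ (19 * 2) ≤ 10 ^ 40 * E / 5 := h4
      _ ≤ y * q ^ 33 / 5 := by linarith
      _ ≤ κ * (y * q ^ 32) / 5 := by linarith
      _ = κ / 5 * y * q ^ 32 := by ring
      _ ≤ _ := h1
  have hq16 : 0 < q ^ 16 := by positivity
  have i1 : 1 / (κ * b ^ 3) ≤ 1 / q ^ 16 := by
    apply one_div_le_one_div_of_le hq16
    have := hpw2 1 3 (by norm_num) (by norm_num)
    rwa [pow_one] at this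
  have i2 : 1 / (κ ^ 6 * b ^ 16) ≤ 1 / q ^ 16 := one_div_le_one_div_of_le hq16 (hpw2 6 16 (by norm_num) (by norm_num))
  have iq : 0 < 1 / q ^ 16 := by positivity
  have hvb' : 10 ^ 19 * (1 / q ^ 16) ≤ v := by
    rw [mul_one_div]
    exact hvb
  refine Helper92.EV.saddle_core P h.nn k hk r v d (220 / (κ * b ^ 3)) 1 c hr hPr hd0 (by linarith) (by positivity) ?_
    zero_le_one hc0 ⟨?_, ?_⟩ (by nlinarith) ?_ ?_
  · have : 220 / (κ * b ^ 3) * d = 220 / 1000 := by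
      rw [hd]
      field_simp
    rw [this]
    norm_num
  · have e1 : 960 * (220 / (κ * b ^ 3)) = 211200 * (1 / (κ * b ^ 3)) := by ring
    have e2 : 480 * 1 / c ^ 2 = 5808000000000000000 * (1 / (κ ^ 6 * b ^ 16)) := by
      rw [hc, hd]
      field_simp
      norm_num
    rw [e1, e2]
    linarith
  · have e1 : 1 / d = 1000 * (1 / (κ * b ^ 3)) := by
      rw [hd]
      field_simp
    rw [e1]
    linarith
  · intro x hx
    have hx0 : |x| = x := abs_of_nonneg hx.1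
    obtain ⟨w, hw1, hw2⟩ := loc hA h hr (by rw [← hyd]; exact hEy) (x := x) (by rw [hx0]; linarith [hx.2])
    rw [← hyd, hx0] at hw1
    refine ⟨w, hw1.trans ?_, ?_⟩
    · refine mul_le_mul_of_nonneg_right ?_ (pow_nonneg hx.1 3)
      rw [hv2]
      calc 44 * y / b ^ 3 = 220 / (κ * b ^ 3) * (κ / 5 * y) := by
            field_simp
            ring
        _ ≤ 220 / (κ * b ^ 3) * V P r := mul_le_mul_of_nonneg_left hV (by positivity)
    · have e1 : aeval ((r : ℂ) * Complex.exp ((x : ℂ) * Complex.I)) P = aeval (pt r x) P := rfl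
      rw [e1, hw2, hmean, hv2]
      congr 2
      push_cast
      ring
  · intro x hx
    have hx0 : 0 ≤ x := hd0.le.trans hx.1
    have e1 : aeval ((r : ℂ) * Complex.exp ((x : ℂ) * Complex.I)) P = aeval (pt r x) P := rfl
    rw [e1, one_mul, hv2]
    have h1 := h.hi r x hr h6 (by rw [abs_of_nonneg hx0]; exact hx.2)
    rw [← hyd] at h1
    refine h1.trans ?_
    refine le_trans ?_ (mul_le_mul_of_nonneg_left hlo (Real.exp_pos _).le)
    rw [← Real.exp_add]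
    apply Real.exp_le_exp.2
    have h2 := Helper92.EV.one_sub_cos_lower hx0 hx.2
    have h3 : d ^ 2 ≤ x ^ 2 := pow_le_pow_left₀ hd0.le hx.1 2
    have h4 : κ * y * (d ^ 2 / 5) ≤ κ * y * (1 - Real.cos x) := mul_le_mul_of_nonneg_left (by linarith) (by positivity)
    have h5 : c * V P r ≤ κ * y * d ^ 2 / 10 := by
      have h6 : c * V P r ≤ c * W P r := mul_le_mul_of_nonneg_left hVW hc0.le
      have h7 : c * W P r = κ * d ^ 2 / 110 * (b ^ 2 * W P r) := by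
        rw [hc]
        ring
      have h8 : κ * d ^ 2 / 110 * (b ^ 2 * W P r) ≤ κ * d ^ 2 / 110 * (11 * y) := mul_le_mul_of_nonneg_left hW (by positivity)
      linarith
    have h6 : 0 ≤ κ * y * d ^ 2 := by positivity
    linarith

end Pool.Agent.Helper14.PC
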