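import Pool.Agent.Helper3.EVC.E07
import Pool.Agent.Helper3.EVC.Defs

/-!
# The local form with explicit constants (proofs of Helper3/EVC/E08 and E10)
-/

set_option autoImplicit false

namespace Pool.Agent.Helper14.PC

open Polynomial EVC

theorem log_exp' {B : ℝ} (hB : 1 ≤ B) {q : ℂ} (hq : ‖q‖ ≤ B) {θ : ℝ} (hθ : |θ| ≤ 1 / (2 * B)) :
    ∃ f : ℂ, Complex.exp f = 1 + (Complex.exp (θ * Complex.I) - 1) * q ∧
      ‖f - θ * Complex.I * q + (θ : ℂ) ^ 2 / 2 * (q * (1 - q))‖ ≤ 2 * (1 + B) * ‖q * (1 - q)‖ * |θ| ^ 3 := by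
  have hB0 : 0 < B := lt_of_lt_of_le one_pos hB
  have hle : 1 / (2 * B) ≤ 1 / 2 := by
    apply one_div_le_one_div_of_le (by norm_num)
    linarith
  -- basic bounds for a real number `t` with `|t| ≤ 1 / (2 B)`
  have b1 : ∀ t : ℝ, ‖Complex.exp (t * Complex.I) - 1‖ ≤ |t| := by
    intro t
    have := Real.norm_exp_I_mul_ofReal_sub_one_le (x := t)
    rwa [mul_comm Complex.I, Real.norm_eq_abs] at this
  have b2 : ∀ t : ℝ, |t| ≤ 1 / (2 * B) →
      ‖(Complex.exp (t * Complex.I) - 1) * q‖ ≤ |t| * B := by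
    intro t _
    rw [norm_mul]
    exact mul_le_mul (b1 t) hq (norm_nonneg _) (abs_nonneg _)
  have b3 : ∀ t : ℝ, |t| ≤ 1 / (2 * B) → |t| * B ≤ 1 / 2 := by
    intro t ht
    have := mul_le_mul_of_nonneg_right ht hB0.le
    have e : 1 / (2 * B) * B = 1 / 2 := by field_simp
    linarith
  obtain ⟨D, hD⟩ : ∃ D : ℝ → ℂ, D = fun t : ℝ => 1 + (Complex.exp (t * Complex.I) - 1) * q :=
    ⟨_, rfl⟩
  have hDt : ∀ t, D t = 1 + (Complex.exp (t * Complex.I) - 1) * q := fun t => by rw [hD]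
  have b4 : ∀ t : ℝ, |t| ≤ 1 / (2 * B) → 1 / 2 ≤ (D t).re := by
    intro t ht
    have h1 := (Complex.abs_re_le_norm ((Complex.exp (t * Complex.I) - 1) * q)).trans (b2 t ht)
    have h2 := b3 t ht
    rw [hDt, Complex.add_re, Complex.one_re]
    have h3 := (abs_le.1 (h1.trans h2)).1
    linarith
  have b5 : ∀ t : ℝ, |t| ≤ 1 / (2 * B) → 1 / 2 ≤ ‖D t‖ := fun t ht =>
    (b4 t ht).trans (Complex.re_le_norm _)
  have b6 : ∀ t : ℝ, |t| ≤ 1 / (2 * B) → D t ∈ Complex.slitPlane := fun t ht =>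
    Or.inl (lt_of_lt_of_le (by norm_num) (b4 t ht))
  obtain ⟨g, hg⟩ : ∃ g : ℝ → ℂ, g = fun t =>
    Complex.log (D t) - t * Complex.I * q + (t : ℂ) ^ 2 / 2 * (q * (1 - q)) := ⟨_, rfl⟩
  have hgt : ∀ t, g t =
    Complex.log (D t) - t * Complex.I * q + (t : ℂ) ^ 2 / 2 * (q * (1 - q)) := fun t => by rw [hg]
  have hder : ∀ t : ℝ, |t| ≤ 1 / (2 * B) → HasDerivAt g
      ((Complex.exp (t * Complex.I) * Complex.I * q) / D t - Complex.I * q + t * (q * (1 - q))) t := by
    intro t ht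
    have d0 : HasDerivAt (fun x : ℝ => (x : ℂ)) 1 t := Complex.ofRealCLM.hasDerivAt
    have d1 : HasDerivAt (fun x : ℝ => (x : ℂ) * Complex.I) Complex.I t := by
      simpa using d0.mul_const Complex.I
    have d2 : HasDerivAt (fun x : ℝ => Complex.exp ((x : ℂ) * Complex.I))
        (Complex.exp (t * Complex.I) * Complex.I) t := d1.cexp
    have d3 : HasDerivAt D (Complex.exp (t * Complex.I) * Complex.I * q) t := by
      rw [hD]
      exact ((d2.sub_const 1).mul_const q).const_add 1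
    have d4 : HasDerivAt (fun x => Complex.log (D x))
        ((Complex.exp (t * Complex.I) * Complex.I * q) / D t) t := d3.clog_real (b6 t ht)
    have d5 : HasDerivAt (fun x : ℝ => (x : ℂ) * Complex.I * q) (Complex.I * q) t :=
      d1.mul_const q
    have d6 : HasDerivAt (fun x : ℝ => (x : ℂ) ^ 2 / 2 * (q * (1 - q))) (t * (q * (1 - q))) t := by
      have := ((d0.pow 2).div_const 2).mul_const (q * (1 - q))
      have e : ((2 : ℕ) * (t : ℂ) ^ (2 - 1) * 1) / 2 * (q * (1 - q)) = t * (q * (1 - q)) := by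
        norm_num
      rw [e] at this
      exact this
    rw [hg]
    exact (d4.sub d5).add d6
  have hbound : ∀ t : ℝ, |t| ≤ |θ| →
      ‖(Complex.exp (t * Complex.I) * Complex.I * q) / D t - Complex.I * q + t * (q * (1 - q))‖ ≤
        2 * (1 + B) * ‖q * (1 - q)‖ * |θ| ^ 2 := by
    intro t ht'
    have ht : |t| ≤ 1 / (2 * B) := ht'.trans hθ
    have hD0 : D t ≠ 0 := by
      intro h
      have := b5 t ht
      rw [h, norm_zero] at this
      norm_num at this
    have e : (Complex.exp (t * Complex.I) * Complex.I * q) / D t - Complex.I * q +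
        t * (q * (1 - q)) = (q * (1 - q)) *
          ((Complex.I * (Complex.exp (t * Complex.I) - 1 - t * Complex.I) +
            t * ((Complex.exp (t * Complex.I) - 1) * q)) / D t) := by
      have hI : Complex.I * Complex.I = -1 := Complex.I_mul_I
      field_simp
      rw [hDt]
      linear_combination ((t : ℂ) * q * (1 - q)) * hI
    rw [e, norm_mul, norm_div]
    have n1 : ‖Complex.I * (Complex.exp (t * Complex.I) - 1 - t * Complex.I)‖ ≤ |t| ^ 2 := by
      rw [norm_mul, Complex.norm_I, one_mul]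
      have hn : ‖(t : ℂ) * Complex.I‖ = |t| := by
        rw [norm_mul, Complex.norm_I, mul_one, Complex.norm_real, Real.norm_eq_abs]
      have := Complex.norm_exp_sub_one_sub_id_le (x := (t : ℂ) * Complex.I) (by
        rw [hn]
        linarith)
      rwa [hn] at this
    have n2 : ‖(t : ℂ) * ((Complex.exp (t * Complex.I) - 1) * q)‖ ≤ |t| * (|t| * B) := by
      rw [norm_mul, Complex.norm_real, Real.norm_eq_abs]
      exact mul_le_mul_of_nonneg_left (b2 t ht) (abs_nonneg _)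
    have n3 := norm_add_le (Complex.I * (Complex.exp (t * Complex.I) - 1 - t * Complex.I))
      ((t : ℂ) * ((Complex.exp (t * Complex.I) - 1) * q))
    have n4 : ‖Complex.I * (Complex.exp (t * Complex.I) - 1 - t * Complex.I) +
        (t : ℂ) * ((Complex.exp (t * Complex.I) - 1) * q)‖ ≤ (1 + B) * |t| ^ 2 := by
      nlinarith
    have n5 : (1 + B) * |t| ^ 2 ≤ (1 + B) * |θ| ^ 2 := by
      apply mul_le_mul_of_nonneg_left _ (by positivity)
      exact pow_le_pow_left₀ (abs_nonneg _) ht' 2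
    have n6 : ‖Complex.I * (Complex.exp (t * Complex.I) - 1 - t * Complex.I) +
        (t : ℂ) * ((Complex.exp (t * Complex.I) - 1) * q)‖ / ‖D t‖ ≤ 2 * ((1 + B) * |θ| ^ 2) := by
      rw [div_le_iff₀ (by linarith [b5 t ht])]
      have := b5 t ht
      have h0 : 0 ≤ (1 + B) * |θ| ^ 2 := by positivity
      nlinarith
    calc ‖q * (1 - q)‖ * (‖Complex.I * (Complex.exp (t * Complex.I) - 1 - t * Complex.I) +
        (t : ℂ) * ((Complex.exp (t * Complex.I) - 1) * q)‖ / ‖D t‖)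
        ≤ ‖q * (1 - q)‖ * (2 * ((1 + B) * |θ| ^ 2)) :=
          mul_le_mul_of_nonneg_left n6 (norm_nonneg _)
      _ = 2 * (1 + B) * ‖q * (1 - q)‖ * |θ| ^ 2 := by ring
  refine ⟨Complex.log (D θ), ?_, ?_⟩
  · rw [Complex.exp_log, hDt]
    exact Complex.slitPlane_ne_zero (b6 θ hθ)
  · have hg0 : g 0 = 0 := by
      rw [hgt, hDt]
      simp
    have key : ‖g θ - g 0‖ ≤ 2 * (1 + B) * ‖q * (1 - q)‖ * |θ| ^ 2 * ‖θ - 0‖ := by
      apply Convex.norm_image_sub_le_of_norm_hasDerivWithin_le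
        (f' := fun t : ℝ => (Complex.exp (t * Complex.I) * Complex.I * q) / D t - Complex.I * q +
          t * (q * (1 - q))) (s := {t : ℝ | |t| ≤ |θ|})
      · intro t ht
        exact (hder t (le_trans ht hθ)).hasDerivWithinAt
      · intro t ht
        exact hbound t ht
      · have : {t : ℝ | |t| ≤ |θ|} = Set.Icc (-|θ|) |θ| := by
          ext t
          simp [abs_le]
        rw [this]
        exact convex_Icc _ _
      · simp
      · simp
    rw [hg0, sub_zero, sub_zero, hgt, Real.norm_eq_abs] at key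
    calc _ ≤ _ := key
      _ = _ := by ring

theorem local_form' {B : ℝ} (hB : 1 ≤ B) {L : ℕ} {P : ℝ[X]} (hP : Nice L P) {r : ℝ} (hr : 0 < r)
    (hρ : ∀ ρ ∈ Z P, ‖p r ρ‖ ≤ B) {θ : ℝ} (hθ : |θ| ≤ 1 / (2 * B)) : ∃ w : ℂ,
      ‖w‖ ≤ 2 * (1 + B) * W P r * |θ| ^ 3 ∧
      aeval (pt r θ) P = ((P.eval r : ℝ) : ℂ) *
        Complex.exp (θ * mean P r * Complex.I - (θ : ℂ) ^ 2 / 2 * V P r + w) := by
  have hex : ∀ ρ : ℂ, ∃ f : ℂ, ‖p r ρ‖ ≤ B →
      (Complex.exp f = 1 + (Complex.exp (θ * Complex.I) - 1) * p r ρ ∧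
      ‖f - θ * Complex.I * p r ρ + (θ : ℂ) ^ 2 / 2 * (p r ρ * (1 - p r ρ))‖ ≤
        2 * (1 + B) * ‖p r ρ * (1 - p r ρ)‖ * |θ| ^ 3) := by
    intro ρ
    by_cases h : ‖p r ρ‖ ≤ B
    · obtain ⟨f, hf⟩ := log_exp' hB h hθ
      exact ⟨f, fun _ => hf⟩
    · exact ⟨0, fun h' => absurd h' h⟩
  choose f hf using hex
  refine ⟨((Z P).map fun ρ => f ρ - θ * Complex.I * p r ρ +
    (θ : ℂ) ^ 2 / 2 * (p r ρ * (1 - p r ρ))).sum, ?_, ?_⟩
  · refine (norm_multiset_sum_le _).trans ?_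
    rw [Multiset.map_map]
    have h1 : ((Z P).map ((fun x => ‖x‖) ∘ fun ρ => f ρ - θ * Complex.I * p r ρ +
        (θ : ℂ) ^ 2 / 2 * (p r ρ * (1 - p r ρ)))).sum ≤
        ((Z P).map fun ρ => 2 * (1 + B) * |θ| ^ 3 * ‖p r ρ * (1 - p r ρ)‖).sum := by
      refine Multiset.sum_map_le_sum_map _ _ fun ρ hm => ?_
      have := (hf ρ (hρ ρ hm)).2
      simp only [Function.comp]
      linarith
    refine h1.trans (le_of_eq ?_)
    rw [Multiset.sum_map_mul_left, W]
    ring
  · have h2 : ((Z P).map fun ρ => 1 + (Complex.exp (θ * Complex.I) - 1) * p r ρ).prod =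
        Complex.exp ((Z P).map f).sum := by
      rw [Complex.exp_multiset_sum, Multiset.map_map]
      congr 1
      refine Multiset.map_congr rfl fun ρ hm => ?_
      simp only [Function.comp]
      exact ((hf ρ (hρ ρ hm)).1).symm
    rw [prod_formula hP θ hr, h2]
    congr 2
    have e1 := mean_eq hP hr
    have e2 := V_eq hP hr
    rw [← e1, ← e2, Multiset.sum_map_add, Multiset.sum_map_sub, Multiset.sum_map_mul_left,
      Multiset.sum_map_mul_left]
    ring


end Pool.Agent.Helper14.PC
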